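import Pool.Agent.AltHP.Bound
import Pool.Agent.Helper66.HPD.CutStmt

/-! The second arm exists. -/

namespace Pool.Agent.AltHP

theorem cut : CutStmt := Pool.Agent.HPD66.cutStmt

end Pool.Agent.AltHP
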