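import Pool.Agent.AltPath.Path

/-! Two arms starting at a common point on different sides of a line form a simple path. -/

namespace Pool.Agent.AltHP

open Pool.Agent.AltPath

theorem dt_self_sub (a x : ℝ × ℝ) : dt a (x - x) = 0 := by rw [dt_sub]; ring

/-- Two segments separated weakly and strictly by a line are disjoint. -/
theorem seg_disj {a g x y x' y' : ℝ × ℝ} (hx : dt a (x - g) ≤ 0) (hy : dt a (y - g) ≤ 0)
    (hx' : 0 < dt a (x' - g)) (hy' : 0 < dt a (y' - g)) :
    Disjoint (segment ℝ x y) (segment ℝ x' y') := by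
  rw [Set.disjoint_left]
  intro z hz1 hz2
  obtain ⟨s, t, hs, ht, hst, -, e1⟩ := dt_segment (a := a) (g := g) hz1
  obtain ⟨s', t', hs', ht', hst', -, e2⟩ := dt_segment (a := a) (g := g) hz2
  have h3 : dt a (z - g) ≤ 0 := by
    rw [e1]
    have := mul_nonpos_of_nonneg_of_nonpos hs hx
    have := mul_nonpos_of_nonneg_of_nonpos ht hy
    linarith
  have h4 : 0 < dt a (z - g) := by
    rw [e2]
    rcases lt_or_eq_of_le hs' with h | h
    · have := mul_pos h hx'
      have := mul_nonneg ht' hy'.le
      linarith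
    · have : t' = 1 := by linarith
      rw [← h, this]; linarith
  linarith

/-- Two segments with a common end g, on different sides of a line through g. -/
theorem seg_meet {a g x y : ℝ × ℝ} (hx : dt a (x - g) ≤ 0) (hy : 0 < dt a (y - g)) :
    segment ℝ x g ∩ segment ℝ g y = {g} := by
  apply Set.eq_singleton_iff_unique_mem.mpr
  refine ⟨⟨right_mem_segment ℝ _ _, left_mem_segment ℝ _ _⟩, ?_⟩
  rintro z ⟨hz1, hz2⟩
  obtain ⟨s, t, hs, ht, hst, -, e1⟩ := dt_segment (a := a) (g := g) hz1
  obtain ⟨s', t', hs', ht', hst', hz, e2⟩ := dt_segment (a := a) (g := g) hz2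
  rw [dt_self_sub] at e1 e2
  have h3 : dt a (z - g) ≤ 0 := by
    rw [e1]
    have := mul_nonpos_of_nonneg_of_nonpos hs hx
    linarith
  have h5 : t' * dt a (y - g) ≤ 0 := by linarith
  have h6 : t' = 0 := by
    by_contra hne
    have : 0 < t' := lt_of_le_of_ne ht' (Ne.symm hne)
    have := mul_pos this hy
    linarith
  have h7 : s' = 1 := by linarith
  rw [hz, h6, h7, one_smul, zero_smul, add_zero]

/-- The j-th vertex of the arm p, l. -/
noncomputable def vtx (p : ℝ × ℝ) (l : List (ℝ × ℝ)) (j : ℕ) : ℝ × ℝ := (p :: l).getD j p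

theorem vtx_zero (p : ℝ × ℝ) (l : List (ℝ × ℝ)) : vtx p l 0 = p := by simp [vtx]

theorem vtx_mem {p : ℝ × ℝ} {l : List (ℝ × ℝ)} {j : ℕ} (hj : 0 < j) (hjl : j ≤ l.length) :
    vtx p l j ∈ l := by
  obtain ⟨i, rfl⟩ : ∃ i, j = i + 1 := ⟨j - 1, by omega⟩
  have hi : i < l.length := by omega
  rw [vtx, List.getD_cons_succ, List.getD_eq_getElem _ _ hi]
  exact List.getElem_mem hi

theorem vtx_inj {p : ℝ × ℝ} {l : List (ℝ × ℝ)} (hnd : (p :: l).Nodup) {i j : ℕ}
    (hi : i ≤ l.length) (hj : j ≤ l.length) (h : vtx p l i = vtx p l j) : i = j := by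
  have hi' : i < (p :: l).length := by simp only [List.length_cons]; omega
  have hj' : j < (p :: l).length := by simp only [List.length_cons]; omega
  rw [vtx, vtx, List.getD_eq_getElem _ _ hi', List.getD_eq_getElem _ _ hj'] at h
  exact (List.Nodup.getElem_inj_iff hnd).mp h

theorem vtx_disj {p : ℝ × ℝ} {l : List (ℝ × ℝ)} (h : Good p l) {i j : ℕ} (hij : i + 1 < j)
    (hj : j + 1 ≤ l.length) :
    Disjoint (segment ℝ (vtx p l i) (vtx p l (i + 1))) (segment ℝ (vtx p l j) (vtx p l (j + 1))) := by
  obtain ⟨a, ha, hr⟩ := h.get p l p i (by omega)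
  exact seg_disj (a := a) (g := vtx p l (i + 1)) ha.le (dt_self_sub _ _).le
    (hr j (by omega) (by omega)) (hr (j + 1) (by omega) (by omega))

theorem vtx_meet {p : ℝ × ℝ} {l : List (ℝ × ℝ)} (h : Good p l) {i : ℕ} (hi : i + 2 ≤ l.length) :
    segment ℝ (vtx p l i) (vtx p l (i + 1)) ∩ segment ℝ (vtx p l (i + 1)) (vtx p l (i + 2)) =
      {vtx p l (i + 1)} := by
  obtain ⟨a, ha, hr⟩ := h.get p l p i (by omega)
  exact seg_meet (a := a) ha.le (hr (i + 2) (by omega) (by omega))

/-- The common point is not on the later edges of an arm. -/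
theorem vtx_notMem {p : ℝ × ℝ} {l : List (ℝ × ℝ)} (h : Good p l) {j : ℕ} (hj0 : 0 < j)
    (hj : j + 1 ≤ l.length) : p ∉ segment ℝ (vtx p l j) (vtx p l (j + 1)) := by
  obtain ⟨a, ha, hr⟩ := h.get p l p 0 (by omega)
  intro hz
  have e0 : (p :: l).getD 0 p = p := by simp
  rw [e0] at ha
  obtain ⟨s, t, hs, ht, hst, -, e1⟩ := dt_segment (a := a) (g := (p :: l).getD (0 + 1) p) hz
  have h1 : 0 ≤ dt a (vtx p l j - (p :: l).getD (0 + 1) p) := by
    rcases Nat.lt_or_ge (0 + 1) j with h | h
    · exact (hr j h (by omega)).le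
    · have : j = 0 + 1 := by omega
      rw [this]
      exact (dt_self_sub _ _).ge
  have h2 := hr (j + 1) (by omega) (by omega)
  have h3 := mul_nonneg hs h1
  have h4 : 0 ≤ t * dt a (vtx p l (j + 1) - (p :: l).getD (0 + 1) p) := mul_nonneg ht h2.le
  linarith

theorem hasPath_two_arms {R B : Finset (ℝ × ℝ)} (hdis : Disjoint R B) {z w : ℝ × ℝ}
    {l1 l2 : List (ℝ × ℝ)} (hz : z ∈ R ∪ B) (h1 : ∀ q ∈ l1, q ∈ R ∪ B) (h2 : ∀ q ∈ l2, q ∈ R ∪ B)
    (nd1 : (z :: l1).Nodup) (nd2 : (z :: l2).Nodup) (g1 : Good z l1) (g2 : Good z l2) (b : Bool)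
    (hb : z ∈ R ↔ b = true) (a1 : Alt R b l1) (a2 : Alt R b l2)
    (s1 : ∀ q ∈ l1, dt w (q - z) ≤ 0) (s2 : ∀ q ∈ l2, 0 < dt w (q - z)) :
    HasPath R B (l1.length + l2.length + 1) := by
  classical
  obtain ⟨m, hm⟩ : ∃ m, m = l2.length := ⟨_, rfl⟩
  obtain ⟨m1, hm1⟩ : ∃ m1, m1 = l1.length := ⟨_, rfl⟩
  -- the vertices
  obtain ⟨v, hv⟩ : ∃ v : ℕ → ℝ × ℝ, ∀ i, v i = if i ≤ m then vtx z l2 (m - i) else vtx z l1 (i - m) :=
    ⟨_, fun _ => rfl⟩
  have vle : ∀ i, i ≤ m → v i = vtx z l2 (m - i) := fun i hi => by rw [hv, if_pos hi]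
  have vge : ∀ i, m ≤ i → v i = vtx z l1 (i - m) := by
    intro i hi
    rcases Nat.eq_or_lt_of_le hi with h | h
    · rw [hv, if_pos h.ge, ← h, Nat.sub_self, vtx_zero, vtx_zero]
    · rw [hv, if_neg (by omega)]
  have c1 : ∀ j, j ≤ m1 → vtx z l1 j ∈ R ∪ B := by
    intro j hj
    rcases Nat.eq_zero_or_pos j with rfl | h
    · rw [vtx_zero]; exact hz
    · exact h1 _ (vtx_mem h (by omega))
  have c2 : ∀ j, j ≤ m → vtx z l2 j ∈ R ∪ B := by
    intro j hj
    rcases Nat.eq_zero_or_pos j with rfl | h
    · rw [vtx_zero]; exact hz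
    · exact h2 _ (vtx_mem h (by omega))
  have d1 : ∀ j, j ≤ m1 → dt w (vtx z l1 j - z) ≤ 0 := by
    intro j hj
    rcases Nat.eq_zero_or_pos j with rfl | h
    · rw [vtx_zero]; exact (dt_self_sub _ _).le
    · exact s1 _ (vtx_mem h (by omega))
  have d2 : ∀ j, 0 < j → j ≤ m → 0 < dt w (vtx z l2 j - z) :=
    fun j hj0 hj => s2 _ (vtx_mem hj0 (by omega))
  have hcol : ∀ q, q ∈ R ∪ B → (q ∉ R ↔ q ∈ B) := by
    intro q hq
    constructor
    · intro h
      exact (Finset.mem_union.mp hq).resolve_left h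
    · intro h h'
      exact Finset.disjoint_left.mp hdis h' h
  have hmem : ∀ i, i < m1 + m + 1 → v i ∈ R ∪ B := by
    intro i hi
    rcases Nat.le_total i m with h | h
    · rw [vle i h]; exact c2 _ (by omega)
    · rw [vge i h]; exact c1 _ (by omega)
  rw [← hm, ← hm1]
  refine ⟨v, hmem, ?_, ?_, ?_, ?_⟩
  · -- distinct vertices
    have cross : ∀ i j, i < m → m ≤ j → j < m1 + m + 1 → v i ≠ v j := by
      intro i j hi hj hj' h
      rw [vle i hi.le, vge j hj] at h
      have t1 := d2 (m - i) (by omega) (by omega)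
      have t2 := d1 (j - m) (by omega)
      rw [h] at t1
      linarith
    intro i j hi hj hij
    rcases Nat.lt_or_ge i m with h | h <;> rcases Nat.lt_or_ge j m with h' | h'
    · rw [vle i h.le, vle j h'.le] at hij
      have := vtx_inj nd2 (by omega) (by omega) hij
      omega
    · exact (cross i j h h' hj hij).elim
    · exact (cross j i h' h hi hij.symm).elim
    · rw [vge i h, vge j h'] at hij
      have := vtx_inj nd1 (by omega) (by omega) hij
      omega
  · -- colours
    intro i hi
    have key : v i ∈ R ↔ v (i + 1) ∉ R := by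
      rcases Nat.lt_or_ge i m with h | h
      · rw [vle i h.le, vle (i + 1) (by omega)]
        have := Alt.get z R l2 z b a2 hb (m - (i + 1)) (by omega)
        have e : m - i = m - (i + 1) + 1 := by omega
        rw [e]
        change vtx z l2 (m - (i + 1)) ∈ R ↔ vtx z l2 (m - (i + 1) + 1) ∉ R at this
        tauto
      · rw [vge i h, vge (i + 1) (by omega)]
        have := Alt.get z R l1 z b a1 hb (i - m) (by omega)
        have e : i + 1 - m = i - m + 1 := by omega
        rw [e]
        exact this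
    rw [key]
    exact hcol _ (hmem (i + 1) (by omega))
  · -- disjoint edges
    intro i j hj hij
    rcases Nat.lt_or_ge i m with h | h
    · rcases Nat.lt_or_ge j m with h' | h'
      · rw [vle i h.le, vle (i + 1) (by omega), vle j h'.le, vle (j + 1) (by omega)]
        have e1 : m - i = m - (i + 1) + 1 := by omega
        have e2 : m - j = m - (j + 1) + 1 := by omega
        rw [e1, e2]
        have := vtx_disj g2 (i := m - (j + 1)) (j := m - (i + 1)) (by omega) (by omega)
        rw [segment_symm ℝ (vtx z l2 (m - (i + 1) + 1)), segment_symm ℝ (vtx z l2 (m - (j + 1) + 1))]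
        exact this.symm
      · rw [vle i h.le, vle (i + 1) (by omega), vge j h', vge (j + 1) (by omega)]
        have e1 : j + 1 - m = j - m + 1 := by omega
        rw [e1]
        rcases Nat.lt_or_ge (i + 1) m with h'' | h''
        · exact (seg_disj (d1 (j - m) (by omega)) (d1 (j - m + 1) (by omega))
            (d2 (m - i) (by omega) (by omega)) (d2 (m - (i + 1)) (by omega) (by omega))).symm
        · have e2 : m - (i + 1) = 0 := by omega
          rw [e2, vtx_zero]
          rw [Set.disjoint_left]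
          intro x hx1 hx2
          have hxz : x ∈ ({z} : Set (ℝ × ℝ)) := by
            obtain ⟨s, t, hs, ht, hst, hx, e3⟩ := dt_segment (a := w) (g := z) hx1
            obtain ⟨s', t', hs', ht', hst', -, e4⟩ := dt_segment (a := w) (g := z) hx2
            have t1 := d1 (j - m) (by omega)
            have t2 := d1 (j - m + 1) (by omega)
            have t3 := d2 (m - i) (by omega) (by omega)
            rw [dt_self_sub] at e3
            have t4 : dt w (x - z) ≤ 0 := by
              rw [e4]
              have := mul_nonpos_of_nonneg_of_nonpos hs' t1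
              have := mul_nonpos_of_nonneg_of_nonpos ht' t2
              linarith
            have t5 : s * dt w (vtx z l2 (m - i) - z) ≤ 0 := by linarith
            have t6 : s = 0 := by
              by_contra hne
              have : 0 < s := lt_of_le_of_ne hs (Ne.symm hne)
              have := mul_pos this t3
              linarith
            have t7 : t = 1 := by linarith
            rw [hx, t6, t7, one_smul, zero_smul, zero_add]
            exact Set.mem_singleton z
          rw [Set.mem_singleton_iff] at hxz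
          rw [hxz] at hx2
          exact vtx_notMem g1 (j := j - m) (by omega) (by omega) hx2
    · rw [vge i h, vge (i + 1) (by omega), vge j (by omega), vge (j + 1) (by omega)]
      have e1 : i + 1 - m = i - m + 1 := by omega
      have e2 : j + 1 - m = j - m + 1 := by omega
      rw [e1, e2]
      exact vtx_disj g1 (by omega) (by omega)
  · -- consecutive edges
    intro i hi
    rcases Nat.lt_or_ge i m with h | h
    · rcases Nat.lt_or_ge (i + 1) m with h' | h'
      · rw [vle i h.le, vle (i + 1) (by omega), vle (i + 2) (by omega)]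
        have e1 : m - i = m - (i + 2) + 2 := by omega
        have e2 : m - (i + 1) = m - (i + 2) + 1 := by omega
        rw [e1, e2]
        have := vtx_meet g2 (i := m - (i + 2)) (by omega)
        rw [segment_symm ℝ (vtx z l2 (m - (i + 2) + 2)), segment_symm ℝ (vtx z l2 (m - (i + 2) + 1))
          (vtx z l2 (m - (i + 2))), Set.inter_comm]
        exact this
      · have e0 : m - (i + 1) = 0 := by omega
        have e1 : i + 2 - m = 1 := by omega
        rw [vle i h.le, vle (i + 1) (by omega), vge (i + 2) (by omega), e0, vtx_zero, e1]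
        have := seg_meet (d1 1 (by omega)) (d2 (m - i) (by omega) (by omega))
        rw [segment_symm ℝ (vtx z l2 (m - i)), segment_symm ℝ z (vtx z l1 1), Set.inter_comm]
        exact this
    · rw [vge i h, vge (i + 1) (by omega), vge (i + 2) (by omega)]
      have e1 : i + 1 - m = i - m + 1 := by omega
      have e2 : i + 2 - m = i - m + 2 := by omega
      rw [e1, e2]
      exact vtx_meet g1 (by omega)

theorem HasPath.mono {R B : Finset (ℝ × ℝ)} {k k' : ℕ} (h : HasPath R B k) (hk : k' ≤ k) :
    HasPath R B k' := by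
  obtain ⟨v, h1, h2, h3, h4, h5⟩ := h
  exact ⟨v, fun i hi => h1 i (by omega), fun i j hi hj => h2 i j (by omega) (by omega),
    fun i hi => h3 i (by omega), fun i j hj hij => h4 i j (by omega) hij,
    fun i hi => h5 i (by omega)⟩

theorem HasPath.swap {R B : Finset (ℝ × ℝ)} (hdis : Disjoint R B) {k : ℕ} (h : HasPath R B k) :
    HasPath B R k := by
  obtain ⟨v, h1, h2, h3, h4, h5⟩ := h
  refine ⟨v, fun i hi => by rw [Finset.union_comm]; exact h1 i hi, h2, ?_, h4, h5⟩
  intro i hi
  have t1 := h3 i hi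
  have t2 := Finset.mem_union.mp (h1 i (by omega))
  have t3 := Finset.mem_union.mp (h1 (i + 1) hi)
  have t4 : ∀ q, q ∈ R → q ∉ B := fun q h h' => Finset.disjoint_left.mp hdis h h'
  have t5 := t4 (v i)
  have t6 := t4 (v (i + 1))
  tauto

end Pool.Agent.AltHP
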