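import Pool.Agent.AltHP.Bridge
import Pool.Agent.AltHP.Arms

/-! The tangent with a prescribed number of points on its closed left, and the first arm. -/

namespace Pool.Agent.AltHP

open Pool.Agent.AltPath

/-- The j smallest points. -/
theorem exists_initial (f : ℝ × ℝ → ℝ) (V : Finset (ℝ × ℝ)) : ∀ j : ℕ, j ≤ V.card →
    ∃ V1 ⊆ V, V1.card = j ∧ ∀ p ∈ V1, ∀ q ∈ V, q ∉ V1 → f p ≤ f q := by
  classical
  intro j
  induction j with
  | zero =>
    intro _
    exact ⟨∅, Finset.empty_subset _, rfl, fun p hp => absurd hp (Finset.notMem_empty p)⟩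
  | succ j ih =>
    intro hj
    obtain ⟨V1, h1, h2, h3⟩ := ih (by omega)
    have hne : (V \ V1).Nonempty := by
      rw [← Finset.card_pos]
      have := Finset.card_sdiff_add_card_eq_card h1
      omega
    obtain ⟨g, hg, hmin⟩ := Finset.exists_min_image (V \ V1) f hne
    obtain ⟨hgV, hg1⟩ := Finset.mem_sdiff.mp hg
    refine ⟨insert g V1, Finset.insert_subset hgV h1, by
      rw [Finset.card_insert_of_notMem hg1, h2], ?_⟩
    intro p hp q hq hq'
    rw [Finset.mem_insert, not_or] at hq'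
    rcases Finset.mem_insert.mp hp with rfl | hp
    · exact hmin q (Finset.mem_sdiff.mpr ⟨hq, hq'.2⟩)
    · exact h3 p hp q hq hq'.2

/-- The tangent of X from a point of Y such that exactly k points of Y are on its closed left. -/
theorem tangent {S : Finset (ℝ × ℝ)} (hgp : GP S) {a a' : ℝ × ℝ} (ha : cr a a' ≠ 0)
    {X Y : Finset (ℝ × ℝ)} (hXS : X ⊆ S) (hYS : Y ⊆ S) (hX : X.Nonempty)
    (hs : ∀ p ∈ X, ∀ q ∈ Y, dt a q < dt a p) {k : ℕ} (hk : 1 ≤ k) (hkY : k ≤ Y.card) :
    ∃ Y1 ⊆ Y, Y1.card = k ∧ ∃ p z s, Br a a' X Y1 p z s ∧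
      ∀ q ∈ Y, q ∉ Y1 → dt (a' - s • a) z < dt (a' - s • a) q := by
  classical
  have hmax : ∀ z : ℝ × ℝ, ∃ p ∈ X, ∀ p' ∈ X,
      (dt a' p' - dt a' z) / (dt a p' - dt a z) ≤ (dt a' p - dt a' z) / (dt a p - dt a z) :=
    fun z => Finset.exists_max_image X _ hX
  choose f hf hf' using hmax
  obtain ⟨Y1, h1, h2, h3⟩ := exists_initial
    (fun z => -((dt a' (f z) - dt a' z) / (dt a (f z) - dt a z))) Y k hkY
  have hY1 : Y1.Nonempty := by
    rw [← Finset.card_pos]; omega
  obtain ⟨d, hd, hmin⟩ := Finset.exists_min_image Y1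
    (fun z => (dt a' (f z) - dt a' z) / (dt a (f z) - dt a z)) hY1
  have hdY := h1 hd
  set s := (dt a' (f d) - dt a' d) / (dt a (f d) - dt a d) with hsdef
  have hpos : ∀ p ∈ X, ∀ q ∈ Y, 0 < dt a p - dt a q := fun p hp q hq => sub_pos.mpr (hs p hp q hq)
  have e1 : s * (dt a (f d) - dt a d) = dt a' (f d) - dt a' d :=
    div_mul_cancel₀ _ (hpos _ (hf d) d hdY).ne'
  have e2 : ∀ q ∈ X, dt a' q - dt a' d ≤ s * (dt a q - dt a d) := by
    intro q hq
    exact (div_le_iff₀ (hpos q hq d hdY)).mp (hf' d q hq)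
  have w0 : a' - s • a ≠ 0 := sub_smul_ne_zero ha s
  refine ⟨Y1, h1, h2, f d, d, s, ⟨hf d, hd, ?_, ?_, ?_⟩, ?_⟩
  · rw [dt_sub_smul, dt_sub_smul]; linarith
  · intro q hq
    rw [dt_sub_smul, dt_sub_smul]
    have := e2 q hq
    linarith
  · intro q hq
    rw [dt_sub_smul, dt_sub_smul]
    have h4 : s * (dt a (f q) - dt a q) ≤ dt a' (f q) - dt a' q :=
      (le_div_iff₀ (hpos _ (hf q) q (h1 hq))).mp (hmin q hq)
    have h5 := e2 (f q) (hf q)
    linarith
  · intro q hq hq1
    have h4 := h3 d hd q hq hq1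
    have h5 : (dt a' (f q) - dt a' q) / (dt a (f q) - dt a q) ≤ s := by linarith
    have h6 : dt a' (f d) - dt a' q ≤ s * (dt a (f d) - dt a q) :=
      (div_le_iff₀ (hpos _ (hf d) q hq)).mp ((hf' q (f d) (hf d)).trans h5)
    have h7 : dt (a' - s • a) d = dt (a' - s • a) (f d) := by
      rw [dt_sub_smul, dt_sub_smul]; linarith
    have h8 : dt (a' - s • a) (f d) ≤ dt (a' - s • a) q := by
      rw [dt_sub_smul, dt_sub_smul]; linarith
    rcases lt_or_eq_of_le h8 with h | h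
    · rw [h7]; exact h
    · exfalso
      have hfd : f d ≠ d := by
        intro h0
        have := hs (f d) (hf d) d hdY
        rw [h0] at this
        exact lt_irrefl _ this
      have hfq : f d ≠ q := by
        intro h0
        have := hs (f d) (hf d) q hq
        rw [h0] at this
        exact lt_irrefl _ this
      have hdq : d ≠ q := by
        rintro rfl
        exact hq1 hd
      exact gp_line hgp (hXS (hf d)) (hYS hdY) (hYS hq) hfd hfq hdq w0 h7 h.symm

/-- The first arm: from the end z of the bridge through all other points. -/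
theorem arm {S : Finset (ℝ × ℝ)} (hgp : GP S) {a a' : ℝ × ℝ} (ha : cr a a' ≠ 0)
    {X Y : Finset (ℝ × ℝ)} (hXS : X ⊆ S) (hYS : Y ⊆ S)
    (hs : ∀ p ∈ X, ∀ q ∈ Y, dt a q < dt a p) (hcard : X.card = Y.card) {p z : ℝ × ℝ} {s : ℝ}
    (hbr : Br a a' X Y p z s) :
    ∃ l : List (ℝ × ℝ), (z :: l).Nodup ∧ (∀ q ∈ l, q ∈ X ∪ Y) ∧ l.length + 1 = 2 * X.card ∧
      Good z l ∧ ∀ (T : Finset (ℝ × ℝ)) (b : Bool), (∀ q ∈ Y, (q ∈ T ↔ b = true)) →
        (∀ q ∈ X, (q ∈ T ↔ b = false)) → Alt T b l := by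
  classical
  have hd : z ∈ Y := hbr.2.1
  have hYpos : 0 < Y.card := Finset.card_pos.mpr ⟨z, hd⟩
  have hc : (Y.erase z).card = Y.card - 1 := Finset.card_erase_of_mem hd
  have hs' : ∀ p ∈ Y.erase z, ∀ q ∈ X, dt (-a) q < dt (-a) p := by
    intro p hp q hq
    rw [dt_neg_left, dt_neg_left]
    have := hs q hq p (Finset.mem_erase.mp hp).2
    linarith
  have ha' : cr (-a) a' ≠ 0 := by
    intro h0
    apply ha
    simp only [cr, Prod.fst_neg, Prod.snd_neg] at h0 ⊢
    linarith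
  have hdX : z ∉ X := fun h => lt_irrefl _ (hs z h z hd)
  obtain ⟨l, hnd, hmem, hlen, hgood, halt⟩ := zig hgp ((Y.erase z).card + X.card) (-a) a' z
    (Y.erase z) X rfl ha' ((Finset.erase_subset z Y).trans hYS) hXS hdX (by omega) (by omega) hs'
    (by
      intro c'' d'' s'' hbr''
      have h3 := hbr''.unswap
      have h4 := hbr.beyond hgp ha hXS hYS hs h3
      have h5 := h3.2.2.1
      have e : a' - (-s'') • a = a' - s'' • (-a) := by rw [neg_smul, smul_neg]
      rw [e] at h4 h5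
      rw [← h5]; exact h4)
  have hzl : z ∉ l := by
    intro h
    rcases Finset.mem_union.mp ((hmem z).mp h) with h | h
    · exact (Finset.mem_erase.mp h).1 rfl
    · exact hdX h
  refine ⟨l, List.nodup_cons.mpr ⟨hzl, hnd⟩, ?_, by omega, hgood, ?_⟩
  · intro q hq
    rcases Finset.mem_union.mp ((hmem q).mp hq) with h | h
    · exact Finset.mem_union_right _ (Finset.mem_erase.mp h).2
    · exact Finset.mem_union_left _ h
  · intro T b hT1 hT2
    exact halt T b (fun q hq => hT1 q (Finset.mem_erase.mp hq).2) hT2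

end Pool.Agent.AltHP
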