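import Pool.Agent.AltHP.Tangent
import Pool.Agent.Helper79.HPD.Fam

/-! The two-arm path at a tangent, and the doubling of half-planes. -/

namespace Pool.Agent.AltHP

open Pool.Agent.AltPath Pool.Agent.HPD79

/-- The statement of the second arm. -/
def CutStmt : Prop :=
  ∀ (z w : ℝ × ℝ) (V R1 B1 : Finset (ℝ × ℝ)), GP (insert z V) → (∀ q ∈ V, 0 < dt w (q - z)) →
    R1 ⊆ V → B1 ⊆ V → Disjoint R1 B1 → ∀ j : ℕ, j ≤ R1.card → j ≤ B1.card →
    ∃ l : List (ℝ × ℝ), (z :: l).Nodup ∧ (∀ q ∈ l, q ∈ V) ∧ Good z l ∧ j ≤ l.length ∧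
      ∀ (T : Finset (ℝ × ℝ)) (b : Bool), (∀ q ∈ R1, (q ∈ T ↔ b = false)) →
        (∀ q ∈ B1, (q ∈ T ↔ b = true)) → Alt T b l

/-- The path at the tangent with as many blue points of the other side as there are red points
in the half-plane U. -/
theorem lemS (hC : CutStmt) {R B : Finset (ℝ × ℝ)} (hdis : Disjoint R B) (hgp : GP (R ∪ B))
    {n G : ℕ} (hR : R.card = n) (hB : B.card = n) (hG : ∀ k, HasPath R B k → k ≤ n + G)
    {U : Finset (ℝ × ℝ)} (hU : IsHP79 (R ∪ B) U) (hk : 1 ≤ (R ∩ U).card)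
    (hkn : (R ∩ U).card + (B ∩ U).card ≤ n) :
    ∃ H, IsHP79 (R ∪ B) H ∧ (R ∩ U).card ≤ (R ∩ H).card ∧ (R ∩ U).card ≤ (B ∩ H).card ∧
      (B ∩ H).card ≤ (R ∩ U).card + (B ∩ U).card ∧
      (2 * (R ∩ U).card ≤ G + (R ∩ H).card ∨ 2 * (R ∩ U).card ≤ G + (B ∩ H).card) := by
  classical
  obtain ⟨hUP, a, ha⟩ := hU
  obtain ⟨X, hX⟩ : ∃ X, X = R ∩ U := ⟨_, rfl⟩
  obtain ⟨Y, hY⟩ : ∃ Y, Y = B \ U := ⟨_, rfl⟩
  obtain ⟨k, hkdef⟩ : ∃ k, k = (R ∩ U).card := ⟨_, rfl⟩
  have hRP : R ⊆ R ∪ B := Finset.subset_union_left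
  have hBP : B ⊆ R ∪ B := Finset.subset_union_right
  have hXR : X ⊆ R := by rw [hX]; exact Finset.inter_subset_left
  have hYB : Y ⊆ B := by rw [hY]; exact Finset.sdiff_subset
  have hXne : X.Nonempty := by
    rw [← Finset.card_pos, hX]; omega
  have hYcard : Y.card + (B ∩ U).card = n := by
    rw [hY, ← hB]
    exact Finset.card_sdiff_add_card_inter B U
  have hs : ∀ p ∈ X, ∀ q ∈ Y, dt (-a) q < dt (-a) p := by
    intro p hp q hq
    rw [hX] at hp
    rw [hY] at hq
    rw [dt_neg_left, dt_neg_left]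
    have := ha p (Finset.mem_inter.mp hp).2 q (hBP (Finset.mem_sdiff.mp hq).1)
      (Finset.mem_sdiff.mp hq).2
    linarith
  have hYne : Y.Nonempty := by
    rw [← Finset.card_pos]; omega
  have ha0 : a ≠ 0 := by
    rintro rfl
    obtain ⟨p, hp⟩ := hXne
    obtain ⟨q, hq⟩ := hYne
    have := hs p hp q hq
    simp [dt] at this
  have hcr : cr (-a) (-a.2, a.1) ≠ 0 := by
    have := dt_self_pos ha0
    simp only [dt, cr, Prod.fst_neg, Prod.snd_neg] at this ⊢
    nlinarith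
  obtain ⟨a', ha'⟩ : ∃ a' : ℝ × ℝ, a' = (-a.2, a.1) := ⟨_, rfl⟩
  rw [← ha'] at hcr
  obtain ⟨Y1, hY1Y, hY1k, p, z, s, hbr, hout⟩ := tangent hgp hcr (hXR.trans hRP) (hYB.trans hBP)
    hXne hs (k := k) (by omega) (by omega)
  obtain ⟨w, hw⟩ : ∃ w, w = a' - s • (-a) := ⟨_, rfl⟩
  rw [← hw] at hout
  have hXk : X.card = k := by rw [hX, hkdef]
  obtain ⟨l1, nd1, mem1, len1, good1, alt1⟩ := arm hgp hcr (hXR.trans hRP)
    ((hY1Y.trans hYB).trans hBP) (fun p hp q hq => hs p hp q (hY1Y hq)) (by omega) hbr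
  have hzY1 : z ∈ Y1 := hbr.2.1
  have hzB : z ∈ B := hYB (hY1Y hzY1)
  have hle1 : ∀ q ∈ X ∪ Y1, dt w q ≤ dt w z := by
    intro q hq
    have e := hbr.2.2.1
    rw [← hw] at e
    rw [e]
    rcases Finset.mem_union.mp hq with hq | hq
    · have := hbr.2.2.2.1 q hq
      rwa [← hw] at this
    · have := hbr.2.2.2.2 q hq
      rwa [← hw] at this
  obtain ⟨H, hH⟩ : ∃ H, H = (R ∪ B).filter (fun q => dt w q ≤ dt w z) := ⟨_, rfl⟩
  have hHmem : ∀ q, q ∈ H ↔ q ∈ R ∪ B ∧ dt w q ≤ dt w z := by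
    intro q; rw [hH, Finset.mem_filter]
  have hHP : IsHP79 (R ∪ B) H := by
    refine ⟨by rw [hH]; exact Finset.filter_subset _ _, w, ?_⟩
    intro x hx y hy hyH
    have h1 := ((hHmem x).mp hx).2
    have h2 : ¬ dt w y ≤ dt w z := fun h => hyH ((hHmem y).mpr ⟨hy, h⟩)
    push Not at h2
    linarith
  have hXH : X ⊆ R ∩ H := by
    intro q hq
    exact Finset.mem_inter.mpr ⟨hXR hq, (hHmem q).mpr ⟨hRP (hXR hq),
      hle1 q (Finset.mem_union_left _ hq)⟩⟩
  have hY1H : Y1 ⊆ B ∩ H := by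
    intro q hq
    exact Finset.mem_inter.mpr ⟨hYB (hY1Y hq), (hHmem q).mpr ⟨hBP (hYB (hY1Y hq)),
      hle1 q (Finset.mem_union_right _ hq)⟩⟩
  have hBH : B ∩ H ⊆ Y1 ∪ (B ∩ U) := by
    intro q hq
    obtain ⟨hqB, hqH⟩ := Finset.mem_inter.mp hq
    by_cases hqU : q ∈ U
    · exact Finset.mem_union_right _ (Finset.mem_inter.mpr ⟨hqB, hqU⟩)
    · refine Finset.mem_union_left _ ?_
      by_contra hq1
      have h1 := hout q (by rw [hY]; exact Finset.mem_sdiff.mpr ⟨hqB, hqU⟩) hq1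
      have h2 := ((hHmem q).mp hqH).2
      linarith
  have c1 := Finset.card_le_card hXH
  have c2 := Finset.card_le_card hY1H
  have c3 := (Finset.card_le_card hBH).trans (Finset.card_union_le _ _)
  have c4 : (R \ H).card + (R ∩ H).card = n := by
    rw [← hR]; exact Finset.card_sdiff_add_card_inter R H
  have c5 : (B \ H).card + (B ∩ H).card = n := by
    rw [← hB]; exact Finset.card_sdiff_add_card_inter B H
  -- the second arm
  obtain ⟨j, hj⟩ : ∃ j, j = min (R \ H).card (B \ H).card := ⟨_, rfl⟩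
  have hVP : (R ∪ B) \ H ⊆ R ∪ B := Finset.sdiff_subset
  obtain ⟨l2, nd2, mem2, good2, len2, alt2⟩ := hC z w ((R ∪ B) \ H) (R \ H) (B \ H)
    (hgp.mono (Finset.insert_subset (hBP hzB) hVP))
    (by
      intro q hq
      obtain ⟨hqP, hqH⟩ := Finset.mem_sdiff.mp hq
      have h2 : ¬ dt w q ≤ dt w z := fun h => hqH ((hHmem q).mpr ⟨hqP, h⟩)
      push Not at h2
      rw [dt_sub]; linarith)
    (Finset.sdiff_subset_sdiff hRP (Finset.Subset.refl _))
    (Finset.sdiff_subset_sdiff hBP (Finset.Subset.refl _))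
    (Finset.disjoint_of_subset_left Finset.sdiff_subset
      (Finset.disjoint_of_subset_right Finset.sdiff_subset hdis))
    j (by omega) (by omega)
  have hzR : z ∉ R := fun h => Finset.disjoint_left.mp hdis h hzB
  have hpath : HasPath R B (l1.length + l2.length + 1) := by
    refine hasPath_two_arms (w := w) hdis (hBP hzB) ?_ ?_ nd1 nd2 good1 good2 false ?_ ?_ ?_ ?_ ?_
    · intro q hq
      rcases Finset.mem_union.mp (mem1 q hq) with h | h
      · exact hRP (hXR h)
      · exact hBP (hYB (hY1Y h))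
    · intro q hq
      exact hVP (mem2 q hq)
    · simp [hzR]
    · refine alt1 R false ?_ ?_
      · intro q hq
        have h1 : q ∈ B := hYB (hY1Y hq)
        have h2 : q ∉ R := fun h => Finset.disjoint_left.mp hdis h h1
        simp [h2]
      · intro q hq
        simp [hXR hq]
    · refine alt2 R false ?_ ?_
      · intro q hq
        simp [(Finset.mem_sdiff.mp hq).1]
      · intro q hq
        have h2 : q ∉ R := fun h => Finset.disjoint_left.mp hdis h (Finset.mem_sdiff.mp hq).1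
        simp [h2]
    · intro q hq
      rw [dt_sub]
      have := hle1 q (mem1 q hq)
      linarith
    · intro q hq
      obtain ⟨hqP, hqH⟩ := Finset.mem_sdiff.mp (mem2 q hq)
      have h2 : ¬ dt w q ≤ dt w z := fun h => hqH ((hHmem q).mpr ⟨hqP, h⟩)
      push Not at h2
      rw [dt_sub]; linarith
  have hlen := hG _ hpath
  refine ⟨H, hHP, ?_, ?_, ?_, ?_⟩
  · rw [← hkdef]; omega
  · rw [← hkdef]; omega
  · rw [← hkdef]; omega
  · rw [← hkdef]
    rcases Nat.le_total (R \ H).card (B \ H).card with h | h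
    · left
      rw [min_eq_left h] at hj
      omega
    · right
      rw [min_eq_right h] at hj
      omega

theorem Dc79_eq {R B X : Finset (ℝ × ℝ)} (hdis : Disjoint R B) (hX : X ⊆ R ∪ B) :
    Dc79 R X = ((R ∩ X).card : ℤ) - ((B ∩ X).card : ℤ) := by
  classical
  unfold Dc79
  have e1 : X ∩ R = R ∩ X := Finset.inter_comm _ _
  have e2 : X \ R = B ∩ X := by
    ext q
    rw [Finset.mem_sdiff, Finset.mem_inter]
    constructor
    · intro h
      exact ⟨(Finset.mem_union.mp (hX h.1)).resolve_left h.2, h.1⟩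
    · intro h
      exact ⟨h.2, fun h' => Finset.disjoint_left.mp hdis h' h.1⟩
  rw [e1, e2]

theorem card_split {R B X : Finset (ℝ × ℝ)} (hdis : Disjoint R B) (hX : X ⊆ R ∪ B) :
    X.card = (R ∩ X).card + (B ∩ X).card := by
  classical
  rw [← Finset.card_union_of_disjoint]
  · congr 1
    rw [← Finset.union_inter_distrib_right]
    exact (Finset.inter_eq_right.mpr hX).symm
  · exact Finset.disjoint_of_subset_left Finset.inter_subset_left
      (Finset.disjoint_of_subset_right Finset.inter_subset_left hdis)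

/-- Doubling of half-planes. -/
theorem hs_of_lemS (hC : CutStmt) {R B : Finset (ℝ × ℝ)} (hdis : Disjoint R B)
    (hgp : GP (R ∪ B)) {n G : ℕ} (hR : R.card = n) (hB : B.card = n)
    (hG : ∀ k, HasPath R B k → k ≤ n + G) : HS79 (R ∪ B) R n G := by
  classical
  intro X hX hXn hXD
  have e1 := Dc79_eq hdis hX.1
  have e2 := card_split hdis hX.1
  rw [e1] at hXD
  obtain ⟨H, hH, h1, h2, h3, h4⟩ := lemS hC hdis hgp hR hB hG hX (by omega) (by omega)
  have e3 := Dc79_eq hdis hH.1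
  have e4 := card_split hdis hH.1
  refine ⟨H, (B ∩ X).card + (R ∩ X).card - (B ∩ H).card, hH, by omega, ?_, ?_⟩
  · rw [e1, e3]
    omega
  · rw [e3]
    omega

/-- Halving lines. -/
theorem mid_of_lemS (hC : CutStmt) {R B : Finset (ℝ × ℝ)} (hdis : Disjoint R B)
    (hgp : GP (R ∪ B)) {n G : ℕ} (hR : R.card = n) (hB : B.card = n)
    (hG : ∀ k, HasPath R B k → k ≤ n + G) (X : Finset (ℝ × ℝ)) (hX : IsHP79 (R ∪ B) X)
    (hXn : X.card = n) : Dc79 R X ≤ G := by
  classical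
  have e1 := Dc79_eq hdis hX.1
  have e2 := card_split hdis hX.1
  by_contra hcon
  push Not at hcon
  rw [e1] at hcon
  obtain ⟨H, hH, h1, h2, h3, h4⟩ := lemS hC hdis hgp hR hB hG hX (by omega) (by omega)
  have h5 : (R ∩ H).card ≤ n := by
    rw [← hR]; exact Finset.card_le_card Finset.inter_subset_left
  omega

/-- The bound on the discrepancy of all half-planes. -/
theorem disc_bound (hC : CutStmt) {R B : Finset (ℝ × ℝ)} (hdis : Disjoint R B)
    (hgp : GP (R ∪ B)) {n G : ℕ} (hR : R.card = n) (hB : B.card = n)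
    (hG : ∀ k, HasPath R B k → k ≤ n + G) {H : Finset (ℝ × ℝ)} (hH : IsHP79 (R ∪ B) H) (j : ℕ)
    (hj : 2 * (n : ℤ) ≤ 2 ^ j * |Dc79 R H|) : |Dc79 R H| ≤ 2 * (j * ((G : ℤ) + 2) + G) := by
  classical
  have hP : (R ∪ B).card = 2 * n := by
    rw [Finset.card_union_of_disjoint hdis, hR, hB]; ring
  have hD : Dc79 R (R ∪ B) = 0 := by
    rw [Dc79_eq hdis (Finset.Subset.refl _), Finset.inter_eq_left.mpr Finset.subset_union_left,
      Finset.inter_eq_left.mpr Finset.subset_union_right, hR, hB]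
    ring
  have hPR : (R ∪ B) \ R = B := by
    ext q
    rw [Finset.mem_sdiff, Finset.mem_union]
    constructor
    · intro h
      exact h.1.resolve_left h.2
    · intro h
      exact ⟨Or.inr h, fun h' => Finset.disjoint_left.mp hdis h' h⟩
  refine disc_bound79 hP hD (by positivity) (mid_of_lemS hC hdis hgp hR hB hG)
    (hs_of_lemS hC hdis hgp hR hB hG) ?_ hH j hj
  rw [hPR, Finset.union_comm]
  rw [Finset.union_comm] at hgp
  exact hs_of_lemS hC hdis.symm hgp hB hR (fun k hk => hG k (HasPath.swap hdis.symm hk))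

end Pool.Agent.AltHP
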