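import Pool.Agent.AltHP.LemmaS

/-! The final bound in real form. -/

namespace Pool.Agent.AltHP

open Pool.Agent.AltPath Pool.Agent.HPD79

/-- A longest path. -/
theorem exists_longest {R B : Finset (ℝ × ℝ)} : ∃ k, HasPath R B k ∧ ∀ k', HasPath R B k' → k' ≤ k := by
  classical
  have hbd : ∀ k, HasPath R B k → k ≤ (R ∪ B).card := by
    rintro k ⟨v, h1, h2, -⟩
    have := Finset.card_le_card_of_injOn v (s := Finset.range k) (t := R ∪ B)
      (fun i hi => h1 i (Finset.mem_range.mp hi))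
      (fun i hi j hj hij => h2 i j (by simpa using hi) (by simpa using hj) hij)
    simpa using this
  have h0 : HasPath R B 0 := ⟨fun _ => 0, fun i hi => by omega, fun i j hi => by omega,
    fun i hi => by omega, fun i j hj => by omega, fun i hi => by omega⟩
  refine ⟨Nat.findGreatest (HasPath R B) (R ∪ B).card, Nat.findGreatest_spec (Nat.zero_le _) h0, ?_⟩
  intro k' hk'
  exact Nat.le_findGreatest (hbd k' hk') hk'

theorem int_bound (hC : CutStmt) {R B : Finset (ℝ × ℝ)} (hdis : Disjoint R B)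
    (hgp : GP (R ∪ B)) {n : ℕ} (hR : R.card = n) (hB : B.card = n)
    (h1 : HasPath R B (n + 1)) {H : Finset (ℝ × ℝ)} (hH : IsHP79 (R ∪ B) H) (j : ℕ)
    (hj : 2 * (n : ℤ) ≤ 2 ^ j * |Dc79 R H|) :
    ∃ k : ℕ, HasPath R B k ∧ |Dc79 R H| ≤ 2 * (3 * (j : ℤ) + 1) * ((k : ℤ) - n) := by
  obtain ⟨k, hk, hmax⟩ := exists_longest (R := R) (B := B)
  have hk1 := hmax _ h1
  obtain ⟨G, rfl⟩ : ∃ G, k = n + G := ⟨k - n, by omega⟩
  refine ⟨n + G, hk, ?_⟩
  have h2 := disc_bound hC hdis hgp hR hB hmax hH j hj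
  have h3 : (1 : ℤ) ≤ G := by omega
  push_cast
  have hj0 : (0 : ℤ) ≤ j := by positivity
  nlinarith [mul_nonneg hj0 (sub_nonneg.mpr h3)]

theorem real_bound (hC : CutStmt) {R B : Finset (ℝ × ℝ)} (hdis : Disjoint R B)
    (hgp : GP (R ∪ B)) {n : ℕ} (hR : R.card = n) (hB : B.card = n)
    (h1 : HasPath R B (n + 1)) {H : Finset (ℝ × ℝ)} (hH : IsHP79 (R ∪ B) H) {ε : ℝ} (hε : 0 < ε)
    (hε1 : ε ≤ 1) (hD : ε * n ≤ |(Dc79 R H : ℝ)|) :
    ∃ k : ℕ, HasPath R B k ∧ (1 + ε / (14 * Real.logb 2 (2 / ε))) * n ≤ k := by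
  have hL1 : 1 ≤ Real.logb 2 (2 / ε) := by
    rw [Real.le_logb_iff_rpow_le (by norm_num) (by positivity), Real.rpow_one, le_div_iff₀ hε]
    linarith
  obtain ⟨j, hjdef⟩ : ∃ j, j = ⌈Real.logb 2 (2 / ε)⌉₊ := ⟨_, rfl⟩
  have hj1 : Real.logb 2 (2 / ε) ≤ j := by rw [hjdef]; exact Nat.le_ceil _
  have hj2 : (j : ℝ) ≤ Real.logb 2 (2 / ε) + 1 := by
    rw [hjdef]; exact (Nat.ceil_lt_add_one (by linarith)).le
  have hj3 : 2 / ε ≤ 2 ^ j := by
    have := (Real.logb_le_iff_le_rpow (b := 2) (by norm_num) (by positivity)).mp hj1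
    rwa [Real.rpow_natCast] at this
  have hj4 : (2 : ℝ) ≤ 2 ^ j * ε := by
    rwa [div_le_iff₀ hε] at hj3
  have hn0 : (0 : ℝ) ≤ n := by positivity
  have hj5 : 2 * (n : ℝ) ≤ 2 ^ j * |(Dc79 R H : ℝ)| := by
    have h2 : (2 : ℝ) ^ j * (ε * n) ≤ 2 ^ j * |(Dc79 R H : ℝ)| :=
      mul_le_mul_of_nonneg_left hD (by positivity)
    have h3 : 2 * (n : ℝ) ≤ (2 ^ j * ε) * n := mul_le_mul_of_nonneg_right hj4 hn0
    linarith
  have hj6 : 2 * (n : ℤ) ≤ 2 ^ j * |Dc79 R H| := by exact_mod_cast hj5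
  obtain ⟨k, hk, hkb⟩ := int_bound hC hdis hgp hR hB h1 hH j hj6
  refine ⟨k, hk, ?_⟩
  have hkb' : |(Dc79 R H : ℝ)| ≤ 2 * (3 * (j : ℝ) + 1) * ((k : ℝ) - n) := by exact_mod_cast hkb
  set L := Real.logb 2 (2 / ε) with hL
  have h4 : 0 ≤ (k : ℝ) - n := by
    by_contra hcon
    push Not at hcon
    have h5 : 0 < 2 * (3 * (j : ℝ) + 1) := by positivity
    have h6 := mul_neg_of_pos_of_neg h5 hcon
    have h7 := abs_nonneg (Dc79 R H : ℝ)
    linarith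
  have h5 : 2 * (3 * (j : ℝ) + 1) ≤ 14 * L := by linarith
  have h6 : ε * n ≤ 14 * L * ((k : ℝ) - n) :=
    hD.trans (hkb'.trans (mul_le_mul_of_nonneg_right h5 h4))
  have h7 : 0 < 14 * L := by linarith
  have h8 : ε / (14 * L) * n ≤ (k : ℝ) - n := by
    rw [div_mul_eq_mul_div, div_le_iff₀ h7]
    linarith
  linarith

end Pool.Agent.AltHP
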