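import Pool.Agent.AltHP.Bridge
import Pool.Agent.AltHP.Arms

/-! Every balanced set of 2n points in general position has a simple alternating path with n + 1
vertices. -/

namespace Pool.Agent.AltHP

open Pool.Agent.AltPath

/-- A direction in which finitely many points have different heights. -/
theorem exists_direction (P : Finset (ℝ × ℝ)) : ∃ t : ℝ, ∀ p ∈ P, ∀ q ∈ P, p ≠ q →
    dt (1, t) p ≠ dt (1, t) q := by
  classical
  obtain ⟨t, ht⟩ := Infinite.exists_notMem_finset
    ((P ×ˢ P).image (fun x => -(x.1.1 - x.2.1) / (x.1.2 - x.2.2)))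
  refine ⟨t, fun p hp q hq hpq h => ?_⟩
  simp only [dt] at h
  have h1 : p.1 - q.1 + t * (p.2 - q.2) = 0 := by linarith
  by_cases h2 : p.2 - q.2 = 0
  · rw [h2, mul_zero, add_zero] at h1
    exact hpq (Prod.ext (sub_eq_zero.mp h1) (sub_eq_zero.mp h2))
  · apply ht
    rw [Finset.mem_image]
    refine ⟨(p, q), Finset.mem_product.mpr ⟨hp, hq⟩, ?_⟩
    rw [div_eq_iff h2]
    linarith

/-- A threshold with exactly k values above it. -/
theorem exists_threshold {α : Type*} [DecidableEq α] (P : Finset α) (f : α → ℝ)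
    (hf : ∀ p ∈ P, ∀ q ∈ P, p ≠ q → f p ≠ f q) : ∀ k, k ≤ P.card →
    ∃ c : ℝ, (P.filter (fun p => c < f p)).card = k ∧ ∀ p ∈ P, f p ≠ c := by
  classical
  intro k
  induction k with
  | zero =>
    intro _
    obtain ⟨M, hM⟩ := (P.image f).bddAbove
    have hM' : ∀ p ∈ P, f p ≤ M := fun p hp => hM (Finset.mem_coe.mpr (Finset.mem_image_of_mem f hp))
    refine ⟨M + 1, ?_, fun p hp h => ?_⟩
    · rw [Finset.card_eq_zero, Finset.filter_eq_empty_iff]
      intro p hp
      have := hM' p hp
      linarith
    · have := hM' p hp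
      linarith
  | succ k ih =>
    intro hk
    obtain ⟨c, hc, hne⟩ := ih (by omega)
    have hS : (P.filter (fun p => f p < c)).Nonempty := by
      rw [Finset.nonempty_iff_ne_empty]
      intro h
      have : P.filter (fun p => c < f p) = P := by
        rw [Finset.filter_eq_self]
        intro p hp
        have h1 : p ∉ P.filter (fun p => f p < c) := by rw [h]; exact Finset.notMem_empty p
        rw [Finset.mem_filter] at h1
        exact lt_of_le_of_ne (not_lt.mp (fun h2 => h1 ⟨hp, h2⟩)) (hne p hp).symm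
      rw [this] at hc
      omega
    obtain ⟨p, hp, hmax⟩ := Finset.exists_max_image _ f hS
    rw [Finset.mem_filter] at hp
    -- the new threshold
    have hT : ∃ c' : ℝ, c' < f p ∧ ∀ q ∈ P, f q < f p → f q < c' := by
      rcases Finset.eq_empty_or_nonempty (P.filter (fun q => f q < f p)) with h | h
      · refine ⟨f p - 1, by linarith, fun q hq hqp => ?_⟩
        have : q ∈ P.filter (fun q => f q < f p) := Finset.mem_filter.mpr ⟨hq, hqp⟩
        rw [h] at this
        exact absurd this (Finset.notMem_empty q)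
      · obtain ⟨q, hq, hq'⟩ := Finset.exists_max_image _ f h
        rw [Finset.mem_filter] at hq
        refine ⟨(f q + f p) / 2, by linarith [hq.2], fun r hr hrp => ?_⟩
        have := hq' r (Finset.mem_filter.mpr ⟨hr, hrp⟩)
        linarith [hq.2]
    obtain ⟨c', hc1, hc2⟩ := hT
    have key : P.filter (fun q => c' < f q) = insert p (P.filter (fun q => c < f q)) := by
      ext q
      rw [Finset.mem_insert, Finset.mem_filter, Finset.mem_filter]
      constructor
      · rintro ⟨hq, hcq⟩
        by_cases hqp : q = p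
        · exact Or.inl hqp
        · right
          refine ⟨hq, ?_⟩
          by_contra hcon
          have h1 : f q < c := lt_of_le_of_ne (not_lt.mp hcon) (hne q hq)
          have h2 := hmax q (Finset.mem_filter.mpr ⟨hq, h1⟩)
          have h3 := hc2 q hq (lt_of_le_of_ne h2 (hf q hq p hp.1 hqp))
          linarith
      · rintro (rfl | ⟨hq, hcq⟩)
        · exact ⟨hp.1, hc1⟩
        · exact ⟨hq, by linarith [hp.2]⟩
    refine ⟨c', ?_, fun q hq h => ?_⟩
    · rw [key, Finset.card_insert_of_notMem, hc]
      rw [Finset.mem_filter]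
      intro h
      linarith [h.2, hp.2]
    · have h1 : f q < f p := by rw [h]; exact hc1
      have := hc2 q hq h1
      linarith

/-- The arm which starts at the upper end of the bridge and uses up both sets. -/
theorem arm_of_bridge {S : Finset (ℝ × ℝ)} (hgp : GP S) {a a' : ℝ × ℝ} (ha : cr a a' ≠ 0)
    {X Y : Finset (ℝ × ℝ)} (hXS : X ⊆ S) (hYS : Y ⊆ S)
    (hs : ∀ p ∈ X, ∀ q ∈ Y, dt a q < dt a p) (hcard : X.card = Y.card) {c d : ℝ × ℝ} {s : ℝ}
    (hbr : Br a a' X Y c d s) :
    ∃ l : List (ℝ × ℝ), (c :: l).Nodup ∧ (∀ q ∈ l, q ∈ X ∪ Y) ∧ l.length + 1 = X.card + Y.card ∧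
      Good c l ∧ ∀ (T : Finset (ℝ × ℝ)) (b : Bool), (∀ q ∈ X, (q ∈ T ↔ b = true)) →
        (∀ q ∈ Y, (q ∈ T ↔ b = false)) → Alt T b l := by
  classical
  have hc : c ∈ X := hbr.1
  have hcY : c ∉ Y := fun h => lt_irrefl _ (hs c hc c h)
  have hXc : (X.erase c).card = X.card - 1 := Finset.card_erase_of_mem hc
  have hXpos : 0 < X.card := Finset.card_pos.mpr ⟨c, hc⟩
  have hna : cr (-a) a' ≠ 0 := by
    intro h0
    apply ha
    simp only [cr, Prod.fst_neg, Prod.snd_neg] at h0 ⊢
    linarith
  have hs' : ∀ p ∈ Y, ∀ q ∈ X, dt (-a) q < dt (-a) p := by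
    intro p hp q hq
    rw [dt_neg_left, dt_neg_left]
    have := hs q hq p hp
    linarith
  obtain ⟨l, hnd, hmem, hlen, hgood, halt⟩ := zig hgp (X.card - 1 + Y.card) a a' c (X.erase c) Y
    (by rw [hXc]) ha ((Finset.erase_subset c X).trans hXS) hYS hcY (by omega) (by omega)
    (fun p hp q hq => hs p (Finset.mem_erase.mp hp).2 q hq)
    (by
      intro c' d' s' h'
      have h1 := hbr.swap.beyond hgp hna hYS hXS hs' h'.swap
      have e : a' - (-s') • (-a) = a' - s' • a := by rw [neg_smul, smul_neg, neg_neg]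
      rw [e] at h1
      rw [h'.2.2.1]
      exact h1)
  refine ⟨l, List.nodup_cons.mpr ⟨?_, hnd⟩, ?_, ?_, hgood, ?_⟩
  · intro h
    rcases Finset.mem_union.mp ((hmem c).mp h) with h | h
    · exact (Finset.mem_erase.mp h).1 rfl
    · exact hcY h
  · intro q hq
    rcases Finset.mem_union.mp ((hmem q).mp hq) with h | h
    · exact Finset.mem_union_left _ (Finset.mem_erase.mp h).2
    · exact Finset.mem_union_right _ h
  · rw [hlen, hXc]; omega
  · intro T b hX hY
    exact halt T b (fun q hq => hX q (Finset.mem_erase.mp hq).2) hY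

/-- Two separated sets of the same size, one red and one blue, carry a path through all points. -/
theorem path_of_pair {R B : Finset (ℝ × ℝ)} (hdis : Disjoint R B) (hgp : GP (R ∪ B))
    {a a' : ℝ × ℝ} (ha : cr a a' ≠ 0) {X Y : Finset (ℝ × ℝ)} (hX : X ⊆ R) (hY : Y ⊆ B)
    (hs : ∀ p ∈ X, ∀ q ∈ Y, dt a q < dt a p) (hcard : X.card = Y.card) (hne : X.Nonempty) :
    HasPath R B (X.card + Y.card) := by
  classical
  have hYne : Y.Nonempty := by
    rw [← Finset.card_pos, ← hcard]
    exact Finset.card_pos.mpr hne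
  obtain ⟨c, d, s, hbr⟩ := exists_bridge a a' hne hYne hs
  obtain ⟨l, hnd, hmem, hlen, hgood, halt⟩ := arm_of_bridge hgp ha
    (hX.trans Finset.subset_union_left) (hY.trans Finset.subset_union_right) hs hcard hbr
  have hRB : ∀ q ∈ X ∪ Y, q ∈ R ∪ B := fun q hq => Finset.union_subset_union hX hY hq
  have h := hasPath_two_arms (w := (0 : ℝ × ℝ)) hdis
    (Finset.mem_union_left _ (hX hbr.1)) (fun q hq => hRB q (hmem q hq))
    (l2 := []) (fun q hq => absurd hq List.not_mem_nil) hnd (List.nodup_singleton c) hgood trivial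
    true (by simp [hX hbr.1])
    (halt R true (fun q hq => by simp [hX hq])
      (fun q hq => by simpa using fun h => Finset.disjoint_left.mp hdis h (hY hq)))
    trivial (fun q _ => by simp [dt]) (fun q hq => absurd hq List.not_mem_nil)
  rw [← hlen]
  simpa using h

/-- If a point lies strictly beyond the bridge the path gets one more vertex. -/
theorem path_of_beyond {R B : Finset (ℝ × ℝ)} (hdis : Disjoint R B) (hgp : GP (R ∪ B))
    {a a' : ℝ × ℝ} (ha : cr a a' ≠ 0) {X Y : Finset (ℝ × ℝ)} (hX : X ⊆ R) (hY : Y ⊆ B)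
    (hs : ∀ p ∈ X, ∀ q ∈ Y, dt a q < dt a p) (hcard : X.card = Y.card) {c d : ℝ × ℝ} {s : ℝ}
    (hbr : Br a a' X Y c d s) {q : ℝ × ℝ} (hq : q ∈ R ∪ B)
    (hbey : dt (a' - s • a) c < dt (a' - s • a) q) : HasPath R B (X.card + Y.card + 1) := by
  classical
  have hRB : ∀ q ∈ X ∪ Y, q ∈ R ∪ B := fun q hq => Finset.union_subset_union hX hY hq
  have hle : ∀ x ∈ X ∪ Y, dt (a' - s • a) x ≤ dt (a' - s • a) c := by
    intro x hx
    rcases Finset.mem_union.mp hx with hx | hx
    · exact hbr.2.2.2.1 x hx
    · exact hbr.2.2.2.2 x hx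
  have good1 : ∀ z : ℝ × ℝ, q ≠ z → Good z [q] := by
    intro z hqz
    refine ⟨⟨q - z, ?_, by simp⟩, trivial⟩
    have h1 := dt_self_pos (sub_ne_zero.mpr hqz)
    have e : dt (q - z) (z - q) = - dt (q - z) (q - z) := by
      simp only [dt, Prod.fst_sub, Prod.snd_sub]; ring
    rw [e]; linarith
  have hqc : q ≠ c := by
    rintro rfl
    exact lt_irrefl _ hbey
  have hqd : q ≠ d := by
    rintro rfl
    rw [hbr.2.2.1] at hbey
    exact lt_irrefl _ hbey
  rcases Finset.mem_union.mp hq with hqR | hqB
  · -- a red point, appended at the blue end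
    have hna : cr (-a) a' ≠ 0 := by
      intro h0
      apply ha
      simp only [cr, Prod.fst_neg, Prod.snd_neg] at h0 ⊢
      linarith
    have hs' : ∀ p ∈ Y, ∀ q ∈ X, dt (-a) q < dt (-a) p := by
      intro p hp q hq
      rw [dt_neg_left, dt_neg_left]
      have := hs q hq p hp
      linarith
    obtain ⟨l, hnd, hmem, hlen, hgood, halt⟩ := arm_of_bridge hgp hna
      (hY.trans Finset.subset_union_right) (hX.trans Finset.subset_union_left) hs' hcard.symm
      hbr.swap
    have hdR : d ∉ R := fun h => Finset.disjoint_left.mp hdis h (hY hbr.2.1)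
    have h := hasPath_two_arms (w := a' - s • a) hdis
      (Finset.mem_union_right _ (hY hbr.2.1))
      (fun x hx => hRB x (by rw [Finset.union_comm]; exact hmem x hx))
      (l2 := [q]) (fun x hx => by rw [List.mem_singleton.mp hx]; exact hq) hnd
      (by simp [hqd.symm]) hgood (good1 d hqd)
      false (by simp [hdR])
      (halt R false (fun x hx => by
          simpa using fun h => Finset.disjoint_left.mp hdis h (hY hx))
        (fun x hx => by simp [hX hx]))
      ⟨by simp [hqR], trivial⟩
      (fun x hx => by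
        rw [dt_sub, hbr.2.2.1]
        have := hle x (by rw [Finset.union_comm]; exact hmem x hx)
        linarith)
      (fun x hx => by
        rw [List.mem_singleton.mp hx, dt_sub, hbr.2.2.1]
        linarith)
    rw [show X.card + Y.card = l.length + 1 by omega]
    simpa using h
  · obtain ⟨l, hnd, hmem, hlen, hgood, halt⟩ := arm_of_bridge hgp ha
      (hX.trans Finset.subset_union_left) (hY.trans Finset.subset_union_right) hs hcard hbr
    have hqR : q ∉ R := fun h => Finset.disjoint_left.mp hdis h hqB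
    have h := hasPath_two_arms (w := a' - s • a) hdis
      (Finset.mem_union_left _ (hX hbr.1)) (fun x hx => hRB x (hmem x hx))
      (l2 := [q]) (fun x hx => by rw [List.mem_singleton.mp hx]; exact hq) hnd
      (by simp [hqc.symm]) hgood (good1 c hqc)
      true (by simp [hX hbr.1])
      (halt R true (fun x hx => by simp [hX hx])
        (fun x hx => by simpa using fun h => Finset.disjoint_left.mp hdis h (hY hx)))
      ⟨by simp [hqR], trivial⟩
      (fun x hx => by
        rw [dt_sub]
        have := hle x (hmem x hx)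
        linarith)
      (fun x hx => by
        rw [List.mem_singleton.mp hx, dt_sub]
        linarith)
    rw [← hlen]
    simpa using h

/-- The bridge of two separated sets of points in general position is unique. -/
theorem bridge_unique {S : Finset (ℝ × ℝ)} (hgp : GP S) {a a' : ℝ × ℝ} (ha : cr a a' ≠ 0)
    {X Y : Finset (ℝ × ℝ)} (hXS : X ⊆ S) (hYS : Y ⊆ S)
    (hs : ∀ p ∈ X, ∀ q ∈ Y, dt a q < dt a p) {c d c2 d2 : ℝ × ℝ} {s s2 : ℝ}
    (h : Br a a' X Y c d s) (h2 : Br a a' X Y c2 d2 s2) : c = c2 := by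
  obtain ⟨hc, hd, e1, m1, m2⟩ := h
  obtain ⟨hc2, hd2, f1, n1, n2⟩ := h2
  by_contra hne
  have i1 := m1 c2 hc2
  have i2 := m2 d2 hd2
  have j1 := n1 c hc
  have j2 := n2 d hd
  rcases lt_trichotomy s s2 with hlt | heq | hgt
  · have hpos : 0 < (s2 - s) * (dt a c2 - dt a d) :=
      mul_pos (sub_pos.mpr hlt) (sub_pos.mpr (hs c2 hc2 d hd))
    rw [dt_sub_smul, dt_sub_smul] at e1 f1 i1 i2 j1 j2
    nlinarith
  · subst heq
    have hu : dt (a' - s • a) c2 = dt (a' - s • a) c := le_antisymm i1 j1
    have hcd : c ≠ d := by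
      rintro rfl
      exact lt_irrefl _ (hs c hc c hd)
    have hc2d : c2 ≠ d := by
      rintro rfl
      exact lt_irrefl _ (hs c2 hc2 c2 hd)
    exact gp_line hgp (hXS hc) (hYS hd) (hXS hc2) hcd hne hc2d.symm (sub_smul_ne_zero ha s) e1 hu
  · have hpos : 0 < (s - s2) * (dt a c - dt a d2) :=
      mul_pos (sub_pos.mpr hgt) (sub_pos.mpr (hs c hc d2 hd2))
    rw [dt_sub_smul, dt_sub_smul] at e1 f1 i1 i2 j1 j2
    nlinarith

/-- The case of a halving line with more red than blue points above it. -/
theorem path_of_more {R B : Finset (ℝ × ℝ)} (hdis : Disjoint R B) (hgp : GP (R ∪ B)) {n : ℕ}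
    {a a' : ℝ × ℝ} (ha : cr a a' ≠ 0) {c : ℝ}
    (h1 : (R.filter (fun p => c < dt a p)).card = (B.filter (fun p => dt a p < c)).card)
    (h2 : n + 1 ≤ 2 * (R.filter (fun p => c < dt a p)).card) : HasPath R B (n + 1) := by
  classical
  have hne : (R.filter (fun p => c < dt a p)).Nonempty := by
    rw [← Finset.card_pos]; omega
  refine HasPath.mono (path_of_pair hdis hgp ha (Finset.filter_subset _ _)
    (Finset.filter_subset _ _) ?_ h1 hne) (by omega)
  intro p hp q hq
  exact (Finset.mem_filter.mp hq).2.trans (Finset.mem_filter.mp hp).2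

/-- Every balanced set of 2n points in general position, n positive, has a simple alternating path
with n + 1 vertices. -/
theorem hasPath_succ {R B : Finset (ℝ × ℝ)} (hdis : Disjoint R B) (hgp : GP (R ∪ B)) {n : ℕ}
    (hR : R.card = n) (hB : B.card = n) (hn : 1 ≤ n) : HasPath R B (n + 1) := by
  classical
  obtain ⟨t, ht⟩ := exists_direction (R ∪ B)
  obtain ⟨a, haa⟩ : ∃ a : ℝ × ℝ, a = (1, t) := ⟨_, rfl⟩
  rw [← haa] at ht
  have ha : cr a (0, 1) ≠ 0 := by
    rw [haa]; simp [cr]
  have hcardP : (R ∪ B).card = n + n := by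
    rw [Finset.card_union_of_disjoint hdis, hR, hB]
  obtain ⟨c, hc, hne⟩ := exists_threshold (R ∪ B) (dt a) ht n (by omega)
  have split : ∀ S : Finset (ℝ × ℝ), S ⊆ R ∪ B →
      (S.filter (fun p => c < dt a p)).card + (S.filter (fun p => dt a p < c)).card = S.card := by
    intro S hS
    rw [← Finset.card_filter_add_card_filter_not (s := S) (fun p => c < dt a p)]
    congr 1
    apply congrArg
    apply Finset.filter_congr
    intro p hp
    have := hne p (hS hp)
    constructor
    · intro h
      exact not_lt.mpr h.le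
    · intro h
      exact lt_of_le_of_ne (not_lt.mp h) this
  have sR := split R Finset.subset_union_left
  have sB := split B Finset.subset_union_right
  have hU : (R.filter (fun p => c < dt a p)).card + (B.filter (fun p => c < dt a p)).card = n := by
    rw [← hc, Finset.filter_union, Finset.card_union_of_disjoint]
    exact Finset.disjoint_filter_filter hdis
  rcases lt_trichotomy (R.filter (fun p => c < dt a p)).card
    (B.filter (fun p => c < dt a p)).card with hlt | heq | hgt
  · refine HasPath.swap hdis.symm (path_of_more hdis.symm (by rw [Finset.union_comm]; exact hgp) ha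
      (c := c) ?_ ?_) <;> omega
  · -- the balanced halving line
    have hXR : (R.filter (fun p => c < dt a p)).Nonempty := by
      rw [← Finset.card_pos]; omega
    have hXB : (B.filter (fun p => c < dt a p)).Nonempty := by
      rw [← Finset.card_pos]; omega
    have hYR : (R.filter (fun p => dt a p < c)).Nonempty := by
      rw [← Finset.card_pos]; omega
    have hYB : (B.filter (fun p => dt a p < c)).Nonempty := by
      rw [← Finset.card_pos]; omega
    have sep : ∀ S T : Finset (ℝ × ℝ), ∀ p ∈ S.filter (fun p => c < dt a p),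
        ∀ q ∈ T.filter (fun p => dt a p < c), dt a q < dt a p := by
      intro S T p hp q hq
      exact (Finset.mem_filter.mp hq).2.trans (Finset.mem_filter.mp hp).2
    obtain ⟨c1, d1, s1, hbr1⟩ := exists_bridge a (0, 1) hXR hYB (sep R B)
    obtain ⟨c2, d2, s2, hbr2⟩ := exists_bridge a (0, 1) hXB hYR (sep B R)
    by_cases k1 : ∃ q ∈ R ∪ B, dt ((0, 1) - s1 • a) c1 < dt ((0, 1) - s1 • a) q
    · obtain ⟨q, hq, hq'⟩ := k1
      exact HasPath.mono (path_of_beyond hdis hgp ha (Finset.filter_subset _ _)
        (Finset.filter_subset _ _) (sep R B) (by omega) hbr1 hq hq') (by omega)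
    by_cases k2 : ∃ q ∈ R ∪ B, dt ((0, 1) - s2 • a) c2 < dt ((0, 1) - s2 • a) q
    · obtain ⟨q, hq, hq'⟩ := k2
      refine HasPath.swap hdis.symm ?_
      exact HasPath.mono (path_of_beyond hdis.symm (by rw [Finset.union_comm]; exact hgp) ha
        (Finset.filter_subset _ _) (Finset.filter_subset _ _)
        (sep B R) (by omega) hbr2 (by rw [Finset.union_comm]; exact hq) hq') (by omega)
    exfalso
    push Not at k1 k2
    have mem1 := Finset.mem_filter.mp hbr1.1
    have mem2 := Finset.mem_filter.mp hbr2.1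
    have mem3 := Finset.mem_filter.mp hbr1.2.1
    have mem4 := Finset.mem_filter.mp hbr2.2.1
    have b1 : Br a (0, 1) ((R ∪ B).filter (fun p => c < dt a p))
        ((R ∪ B).filter (fun p => dt a p < c)) c1 d1 s1 :=
      ⟨Finset.mem_filter.mpr ⟨Finset.mem_union_left _ mem1.1, mem1.2⟩,
        Finset.mem_filter.mpr ⟨Finset.mem_union_right _ mem3.1, mem3.2⟩, hbr1.2.2.1,
        fun q hq => k1 q (Finset.mem_filter.mp hq).1, fun q hq => k1 q (Finset.mem_filter.mp hq).1⟩
    have b2 : Br a (0, 1) ((R ∪ B).filter (fun p => c < dt a p))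
        ((R ∪ B).filter (fun p => dt a p < c)) c2 d2 s2 :=
      ⟨Finset.mem_filter.mpr ⟨Finset.mem_union_right _ mem2.1, mem2.2⟩,
        Finset.mem_filter.mpr ⟨Finset.mem_union_left _ mem4.1, mem4.2⟩, hbr2.2.2.1,
        fun q hq => k2 q (Finset.mem_filter.mp hq).1, fun q hq => k2 q (Finset.mem_filter.mp hq).1⟩
    have hcc := bridge_unique hgp ha (Finset.filter_subset _ _) (Finset.filter_subset _ _)
      (sep (R ∪ B) (R ∪ B)) b1 b2
    exact Finset.disjoint_left.mp hdis mem1.1 (hcc ▸ mem2.1)
  · refine path_of_more hdis hgp ha (c := c) ?_ ?_ <;> omega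

theorem one_more {R B : Finset (ℝ × ℝ)} (hdis : Disjoint R B) (hgp : GP (R ∪ B)) {n : ℕ}
    (hn : 1 ≤ n) (hR : R.card = n) (hB : B.card = n) : HasPath R B (n + 1) :=
  hasPath_succ hdis hgp hR hB hn

end Pool.Agent.AltHP
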