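import Pool.Agent.AltPath.Path

/-! Bridges of two separated finite sets of points, and the zigzag path which uses up both sets. -/

namespace Pool.Agent.AltHP

open Pool.Agent.AltPath

theorem dt_sub_smul (a b q : ℝ × ℝ) (s : ℝ) : dt (a - s • b) q = dt a q - s * dt b q := by
  simp only [dt, Prod.fst_sub, Prod.snd_sub, Prod.smul_fst, Prod.smul_snd, smul_eq_mul]; ring

theorem dt_neg_left (a q : ℝ × ℝ) : dt (-a) q = -dt a q := by
  simp only [dt, Prod.fst_neg, Prod.snd_neg]; ring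

theorem sub_smul_ne_zero {a b : ℝ × ℝ} (h : cr b a ≠ 0) (s : ℝ) : a - s • b ≠ 0 := by
  intro h0
  apply h
  have h1 : a.1 - s * b.1 = 0 := by
    have := congrArg Prod.fst h0; simpa using this
  have h2 : a.2 - s * b.2 = 0 := by
    have := congrArg Prod.snd h0; simpa using this
  simp only [cr]
  have e1 : a.1 = s * b.1 := by linarith
  have e2 : a.2 = s * b.2 := by linarith
  rw [e1, e2]; ring

/-- Three distinct points of a set in general position are not on a line. -/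
theorem gp_line {S : Finset (ℝ × ℝ)} (h : GP S) {p q r w : ℝ × ℝ} (hp : p ∈ S) (hq : q ∈ S)
    (hr : r ∈ S) (hpq : p ≠ q) (hpr : p ≠ r) (hqr : q ≠ r) (hw : w ≠ 0)
    (h1 : dt w q = dt w p) (h2 : dt w r = dt w p) : False := by
  apply h p hp q hq r hr hpq hpr hqr
  have e1 : dt w (q - p) = 0 := by rw [dt_sub]; linarith
  have e2 : dt w (r - p) = 0 := by rw [dt_sub]; linarith
  have hw' : w.1 ≠ 0 ∨ w.2 ≠ 0 := by
    by_contra hcon
    push Not at hcon
    exact hw (Prod.ext hcon.1 hcon.2)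
  simp only [dt] at e1 e2
  simp only [cr]
  rcases hw' with h0 | h0
  · apply (mul_eq_zero.mp (_ : w.1 * ((q - p).1 * (r - p).2 - (q - p).2 * (r - p).1) = 0)).resolve_left h0
    linear_combination (r - p).2 * e1 - (q - p).2 * e2
  · apply (mul_eq_zero.mp (_ : w.2 * ((q - p).1 * (r - p).2 - (q - p).2 * (r - p).1) = 0)).resolve_left h0
    linear_combination -(r - p).1 * e1 + (q - p).1 * e2

/-- The points c of X and d of Y span the bridge of X and Y on the side where a' - s a is large. -/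
def Br (a a' : ℝ × ℝ) (X Y : Finset (ℝ × ℝ)) (c d : ℝ × ℝ) (s : ℝ) : Prop :=
  c ∈ X ∧ d ∈ Y ∧ dt (a' - s • a) d = dt (a' - s • a) c ∧
    (∀ q ∈ X, dt (a' - s • a) q ≤ dt (a' - s • a) c) ∧
    (∀ q ∈ Y, dt (a' - s • a) q ≤ dt (a' - s • a) c)

theorem Br.swap {a a' : ℝ × ℝ} {X Y : Finset (ℝ × ℝ)} {c d : ℝ × ℝ} {s : ℝ}
    (h : Br a a' X Y c d s) : Br (-a) a' Y X d c (-s) := by
  obtain ⟨hc, hd, h1, h2, h3⟩ := h
  have e : a' - (-s) • (-a) = a' - s • a := by rw [neg_smul, smul_neg, neg_neg]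
  refine ⟨hd, hc, ?_, ?_, ?_⟩
  · rw [e]; exact h1.symm
  · rw [e]; intro q hq; rw [h1]; exact h3 q hq
  · rw [e]; intro q hq; rw [h1]; exact h2 q hq

theorem Br.unswap {a a' : ℝ × ℝ} {X Y : Finset (ℝ × ℝ)} {c d : ℝ × ℝ} {s : ℝ}
    (h : Br (-a) a' Y X d c s) : Br a a' X Y c d (-s) := by
  have := h.swap
  rwa [neg_neg] at this

/-- The bridge exists. -/
theorem exists_bridge (a a' : ℝ × ℝ) {X Y : Finset (ℝ × ℝ)} (hX : X.Nonempty) (hY : Y.Nonempty)
    (hs : ∀ p ∈ X, ∀ q ∈ Y, dt a q < dt a p) : ∃ c d s, Br a a' X Y c d s := by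
  classical
  have hmax : ∀ z : ℝ × ℝ, ∃ p ∈ X, ∀ p' ∈ X,
      (dt a' p' - dt a' z) / (dt a p' - dt a z) ≤ (dt a' p - dt a' z) / (dt a p - dt a z) :=
    fun z => Finset.exists_max_image X _ hX
  choose f hf hf' using hmax
  obtain ⟨d, hd, hmin⟩ := Finset.exists_min_image Y
    (fun z => (dt a' (f z) - dt a' z) / (dt a (f z) - dt a z)) hY
  set s := (dt a' (f d) - dt a' d) / (dt a (f d) - dt a d) with hsdef
  have hpos : ∀ p ∈ X, ∀ q ∈ Y, 0 < dt a p - dt a q := fun p hp q hq => sub_pos.mpr (hs p hp q hq)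
  have e1 : s * (dt a (f d) - dt a d) = dt a' (f d) - dt a' d :=
    div_mul_cancel₀ _ (hpos _ (hf d) d hd).ne'
  have e2 : ∀ q ∈ X, dt a' q - dt a' d ≤ s * (dt a q - dt a d) := by
    intro q hq
    exact (div_le_iff₀ (hpos q hq d hd)).mp (hf' d q hq)
  refine ⟨f d, d, s, hf d, hd, ?_, ?_, ?_⟩
  · rw [dt_sub_smul, dt_sub_smul]; linarith
  · intro q hq
    rw [dt_sub_smul, dt_sub_smul]
    have := e2 q hq
    linarith
  · intro q hq
    rw [dt_sub_smul, dt_sub_smul]
    have h1 : s * (dt a (f q) - dt a q) ≤ dt a' (f q) - dt a' q :=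
      (le_div_iff₀ (hpos _ (hf q) q hq)).mp (hmin q hq)
    have h2 := e2 (f q) (hf q)
    linarith

/-- Removing the end d of the bridge: d is strictly beyond the new bridge. -/
theorem Br.beyond {S : Finset (ℝ × ℝ)} (hgp : GP S) {a a' : ℝ × ℝ} (ha : cr a a' ≠ 0)
    {X Y : Finset (ℝ × ℝ)} (hXS : X ⊆ S) (hYS : Y ⊆ S)
    (hs : ∀ p ∈ X, ∀ q ∈ Y, dt a q < dt a p) {c d c' d' : ℝ × ℝ} {s s' : ℝ}
    (h : Br a a' X Y c d s) (h' : Br a a' X (Y.erase d) c' d' s') :
    dt (a' - s' • a) d' < dt (a' - s' • a) d := by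
  obtain ⟨hc, hd, h1, h2, h3⟩ := h
  obtain ⟨hc', hd', h1', h2', h3'⟩ := h'
  have hdY' : d' ∈ Y := (Finset.mem_erase.mp hd').2
  have hdd : d' ≠ d := (Finset.mem_erase.mp hd').1
  by_contra hcon
  push Not at hcon
  have i1 := h2 c' hc'
  have i2 := h3 d' hdY'
  have i3 := h2' c hc
  have w0 : a' - s • a ≠ 0 := sub_smul_ne_zero ha s
  rcases lt_trichotomy s' s with hlt | heq | hgt
  · have hpos : 0 < (s - s') * (dt a c - dt a d') :=
      mul_pos (sub_pos.mpr hlt) (sub_pos.mpr (hs c hc d' hdY'))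
    rw [dt_sub_smul, dt_sub_smul] at i1 i2 i3 h1 h1' hcon
    nlinarith
  · subst heq
    have hu : dt (a' - s' • a) c' = dt (a' - s' • a) c := le_antisymm i1 i3
    have hcd : c ≠ d := by
      rintro rfl
      exact lt_irrefl _ (hs c hc c hd)
    have hcd' : c ≠ d' := by
      rintro rfl
      exact lt_irrefl _ (hs c hc c hdY')
    exact gp_line hgp (hXS hc) (hYS hd) (hYS hdY') hcd hcd' hdd.symm w0 h1 (h1'.trans hu)
  · have hpos : 0 < (s' - s) * (dt a c' - dt a d) :=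
      mul_pos (sub_pos.mpr hgt) (sub_pos.mpr (hs c' hc' d hd))
    rw [dt_sub_smul, dt_sub_smul] at i1 i2 i3 h1 h1' hcon
    nlinarith

/-- The bridge is an edge visible from a point beyond it. -/
theorem Br.edge {S : Finset (ℝ × ℝ)} (hgp : GP S) {a a' : ℝ × ℝ} (ha : cr a a' ≠ 0)
    {X Y : Finset (ℝ × ℝ)} (hXS : X ⊆ S) (hYS : Y ⊆ S)
    (hs : ∀ p ∈ X, ∀ q ∈ Y, dt a q < dt a p) {c d z : ℝ × ℝ} {s : ℝ}
    (h : Br a a' X Y c d s) (hz : dt (a' - s • a) d < dt (a' - s • a) z) :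
    Vis z (X ∪ Y) d := by
  obtain ⟨hc, hd, h1, h2, h3⟩ := h
  have w0 : a' - s • a ≠ 0 := sub_smul_ne_zero ha s
  have hcd : c ≠ d := by
    rintro rfl
    exact lt_irrefl _ (hs c hc c hd)
  have hle : ∀ q ∈ X ∪ Y, dt (a' - s • a) q ≤ dt (a' - s • a) c := by
    intro q hq
    rcases Finset.mem_union.mp hq with hq | hq
    · exact h2 q hq
    · exact h3 q hq
  have hS : X ∪ Y ⊆ S := Finset.union_subset hXS hYS
  have hE : Edge z (X ∪ Y) c d := by
    refine ⟨Finset.mem_union_left _ hc, Finset.mem_union_right _ hd, hcd.symm, -(a' - s • a), ?_, ?_, ?_⟩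
    · rw [dt_neg_left, dt_sub]; linarith
    · intro q hq hqc hqd
      rw [dt_neg_left, dt_sub]
      have := hle q hq
      rcases lt_or_eq_of_le this with hlt | heq
      · linarith
      · exact (gp_line hgp (hXS hc) (hYS hd) (hS hq) hcd hqc.symm hqd.symm w0 h1 heq).elim
    · rw [dt_neg_left, dt_sub]; linarith
  exact hE.vis

/-- The zigzag path: from the point c beyond the bridge of X and Y, starting with Y, through all
points of X and Y. -/
theorem zig {S : Finset (ℝ × ℝ)} (hgp : GP S) : ∀ (m : ℕ) (a a' c : ℝ × ℝ)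
    (X Y : Finset (ℝ × ℝ)), X.card + Y.card = m → cr a a' ≠ 0 → X ⊆ S → Y ⊆ S → c ∉ Y →
    X.card ≤ Y.card → Y.card ≤ X.card + 1 → (∀ p ∈ X, ∀ q ∈ Y, dt a q < dt a p) →
    (∀ c' d' s, Br a a' X Y c' d' s → dt (a' - s • a) d' < dt (a' - s • a) c) →
    ∃ l : List (ℝ × ℝ), l.Nodup ∧ (∀ q, q ∈ l ↔ q ∈ X ∪ Y) ∧ l.length = X.card + Y.card ∧
      Good c l ∧ ∀ (T : Finset (ℝ × ℝ)) (b : Bool), (∀ q ∈ X, (q ∈ T ↔ b = true)) →
        (∀ q ∈ Y, (q ∈ T ↔ b = false)) → Alt T b l := by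
  classical
  intro m
  induction m using Nat.strong_induction_on with
  | _ m ih =>
  intro a a' c X Y hm ha hXS hYS hcY h1 h2 hs hbey
  rcases Finset.eq_empty_or_nonempty Y with rfl | hY
  · have hX : X = ∅ := by
      rw [← Finset.card_eq_zero]; simpa using h1
    subst hX
    exact ⟨[], List.nodup_nil, by simp, by simp, trivial, fun _ _ _ _ => trivial⟩
  rcases Finset.eq_empty_or_nonempty X with rfl | hX
  · have hY1 : Y.card = 1 := by
      have := Finset.card_pos.mpr hY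
      simp only [Finset.card_empty] at h2
      omega
    obtain ⟨d, rfl⟩ := Finset.card_eq_one.mp hY1
    have hcd : c ≠ d := by
      rintro rfl
      exact hcY (Finset.mem_singleton_self c)
    refine ⟨[d], List.nodup_singleton d, by simp, by simp, ⟨⟨d - c, ?_, by simp⟩, trivial⟩, ?_⟩
    · have := dt_self_pos (sub_ne_zero.mpr hcd.symm)
      have e : dt (d - c) (c - d) = - dt (d - c) (d - c) := by
        simp only [dt, Prod.fst_sub, Prod.snd_sub]; ring
      rw [e]; linarith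
    · intro T b _ hT
      exact ⟨hT d (Finset.mem_singleton_self d), trivial⟩
  obtain ⟨c', d, s, hbr⟩ := exists_bridge a a' hX hY hs
  have hd : d ∈ Y := hbr.2.1
  have hvis := hbr.edge hgp ha hXS hYS hs (hbey c' d s hbr)
  obtain ⟨-, v, hv, hv'⟩ := hvis
  have hcard : (Y.erase d).card = Y.card - 1 := Finset.card_erase_of_mem hd
  have hYpos := Finset.card_pos.mpr hY
  have hs' : ∀ p ∈ Y.erase d, ∀ q ∈ X, dt (-a) q < dt (-a) p := by
    intro p hp q hq
    rw [dt_neg_left, dt_neg_left]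
    have := hs q hq p (Finset.mem_erase.mp hp).2
    linarith
  have ha' : cr (-a) a' ≠ 0 := by
    intro h0
    apply ha
    simp only [cr, Prod.fst_neg, Prod.snd_neg] at h0 ⊢
    linarith
  have hdX : d ∉ X := fun h => lt_irrefl _ (hs d h d hd)
  obtain ⟨l, hnd, hmem, hlen, hgood, halt⟩ := ih (m - 1) (by omega) (-a) a' d (Y.erase d) X
    (by omega) ha' ((Finset.erase_subset d Y).trans hYS) hXS hdX (by omega) (by omega) hs'
    (by
      intro c'' d'' s'' hbr''
      have h3 := hbr''.unswap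
      have h4 := hbr.beyond hgp ha hXS hYS hs h3
      have h5 := h3.2.2.1
      have e : a' - (-s'') • a = a' - s'' • (-a) := by rw [neg_smul, smul_neg]
      rw [e] at h4 h5
      rw [← h5]; exact h4)
  have hmem' : ∀ q, q ∈ d :: l ↔ q ∈ X ∪ Y := by
    intro q
    rw [List.mem_cons, hmem, Finset.mem_union, Finset.mem_union, Finset.mem_erase]
    constructor
    · rintro (rfl | ⟨_, h⟩ | h)
      · exact Or.inr hd
      · exact Or.inr h
      · exact Or.inl h
    · rintro (h | h)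
      · exact Or.inr (Or.inr h)
      · by_cases hq : q = d
        · exact Or.inl hq
        · exact Or.inr (Or.inl ⟨hq, h⟩)
  have hdl : d ∉ l := by
    intro h
    rcases Finset.mem_union.mp ((hmem d).mp h) with h | h
    · exact (Finset.mem_erase.mp h).1 rfl
    · exact hdX h
  refine ⟨d :: l, List.nodup_cons.mpr ⟨hdl, hnd⟩, hmem', ?_, ⟨⟨v, hv', ?_⟩, hgood⟩, ?_⟩
  · rw [List.length_cons, hlen, hcard]; omega
  · intro r hr
    refine hv r ((hmem' r).mp (List.mem_cons_of_mem d hr)) ?_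
    rintro rfl
    exact hdl hr
  · intro T b hTX hTY
    refine ⟨hTY d hd, halt T (!b) ?_ ?_⟩
    · intro q hq
      rw [hTY q (Finset.mem_erase.mp hq).2]
      cases b <;> simp
    · intro q hq
      rw [hTX q hq]
      cases b <;> simp

end Pool.Agent.AltHP
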